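import Pool.Agent.Helper5.FV.Stmts
import Pool.Agent.Helper47.UN.STA

/-! STW: the row STA for a large set `W` of vertices. -/

set_option autoImplicit false

open Finset Pool.Agent.Helper8.UN

namespace Pool.Agent.Helper5.FV

theorem stw_low (hSYM : ST_SYM) (hF2 : ST_F2) {n k : ℕ} {E : Finset (Finset (Fin n))}
    (W : Finset (Fin n)) (hE : Two E) (hk : 1 ≤ k)
    (hcmp : ∀ B : Finset (Fin n), B ⊆ W →
      (1 + 999 / 1000 / (k : ℝ)) ^ B.card * ((PP E (W \ B) k : ℝ) * PP E W (k - 1)) ≤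
      (PP E (W \ B) (k - 1) : ℝ) * PP E W k) :
    (1 + 999 / 1000 * ((W.card : ℝ) / ((k : ℝ) * (k + 1)))) *
      ((PP E W (k - 1) : ℝ) * PP E W (k + 1)) ≤ (PP E W k : ℝ) ^ 2 := by
  classical
  have hk0 : (0 : ℝ) < k := by exact_mod_cast hk
  obtain ⟨f1, -⟩ := hF2 n (k - 1) E W hE
  obtain ⟨f2, -⟩ := hF2 n k E W hE
  have f3 := hSYM n k E W hE
  have hkk : k - 1 + 1 = k := by omega
  rw [hkk] at f1
  have f1' : (PP E W k : ℝ) = ∑ B ∈ W.powerset.filter
      (fun B => Pool.Agent.Helper89.UB.Al E B), (PP E (W \ B) (k - 1) : ℝ) := by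
    rw [f1]; push_cast; rfl
  have f2' : (PP E W (k + 1) : ℝ) = ∑ B ∈ W.powerset.filter
      (fun B => Pool.Agent.Helper89.UB.Al E B), (PP E (W \ B) k : ℝ) := by
    rw [f2]; push_cast; rfl
  have f3' : ((k : ℝ) + 1) * ∑ B ∈ W.powerset.filter
      (fun B => Pool.Agent.Helper89.UB.Al E B), ((B.card : ℝ) * (PP E (W \ B) k : ℝ)) =
      W.card * PP E W (k + 1) := by
    have h := congrArg (Nat.cast : ℕ → ℝ) f3
    push_cast at h
    exact h
  set T : Finset (Finset (Fin n)) := W.powerset.filter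
      (fun B => Pool.Agent.Helper89.UB.Al E B) with hT
  have hsum : ∑ B ∈ T, ((B.card : ℝ) * (PP E (W \ B) k : ℝ)) =
      W.card * PP E W (k + 1) / ((k : ℝ) + 1) := by
    rw [eq_div_iff (by positivity), mul_comm]
    exact f3'
  have hV1 : (0 : ℝ) ≤ PP E W (k - 1) := Nat.cast_nonneg _
  calc (1 + 999 / 1000 * ((W.card : ℝ) / ((k : ℝ) * (k + 1)))) *
      ((PP E W (k - 1) : ℝ) * PP E W (k + 1))
      = PP E W (k - 1) * ((PP E W (k + 1) : ℝ) + 999 / 1000 / (k : ℝ) *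
          (W.card * PP E W (k + 1) / ((k : ℝ) + 1))) := by
        field_simp
    _ = PP E W (k - 1) * ((∑ B ∈ T, (PP E (W \ B) k : ℝ)) + 999 / 1000 / (k : ℝ) *
          ∑ B ∈ T, ((B.card : ℝ) * (PP E (W \ B) k : ℝ))) := by
        rw [hsum, f2']
    _ = ∑ B ∈ T, (1 + B.card * (999 / 1000 / (k : ℝ))) *
          ((PP E (W \ B) k : ℝ) * PP E W (k - 1)) := by
        rw [Finset.mul_sum (a := 999 / 1000 / (k : ℝ)), ← Finset.sum_add_distrib, Finset.mul_sum]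
        refine Finset.sum_congr rfl fun B _ => ?_
        ring
    _ ≤ ∑ B ∈ T, (1 + 999 / 1000 / (k : ℝ)) ^ B.card *
          ((PP E (W \ B) k : ℝ) * PP E W (k - 1)) := by
        refine Finset.sum_le_sum fun B _ => ?_
        refine mul_le_mul_of_nonneg_right ?_ (mul_nonneg (Nat.cast_nonneg _) (Nat.cast_nonneg _))
        exact one_add_mul_le_pow (by
          have : (0 : ℝ) ≤ 999 / 1000 / (k : ℝ) := by positivity
          linarith) _
    _ ≤ ∑ B ∈ T, (PP E (W \ B) (k - 1) : ℝ) * PP E W k :=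
        Finset.sum_le_sum fun B hB => hcmp B (Finset.mem_powerset.1 (Finset.mem_filter.1 hB).1)
    _ = (PP E W k : ℝ) ^ 2 := by
        rw [← Finset.sum_mul, ← f1', sq]

theorem stw_up (hEXM : ST_EXM) (hF2 : ST_F2) {n D k : ℕ} {E : Finset (Finset (Fin n))}
    (W : Finset (Fin n)) (hE : Two E) (hBD : BD E D) (hD : 1000 * D ≤ k) (hk : 10000 ≤ k)
    (hcmp : ∀ B : Finset (Fin n), B ⊆ W → (PP E (W \ B) (k - 1) : ℝ) * PP E W k ≤
      (1 + 1001 / 1000 / ((k : ℝ) - 1 - D)) ^ B.card *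
        ((PP E (W \ B) k : ℝ) * PP E W (k - 1))) :
    (PP E W k : ℝ) ^ 2 ≤ Real.exp (1004 / 1000 * (n / (k : ℝ) ^ 2)) *
      ((PP E W (k - 1) : ℝ) * PP E W (k + 1)) := by
  classical
  have hk0 : (10000 : ℝ) ≤ k := by exact_mod_cast hk
  have hD' : 1000 * (D : ℝ) ≤ k := by exact_mod_cast hD
  have hD0 : (0 : ℝ) ≤ D := Nat.cast_nonneg D
  obtain ⟨f1, -⟩ := hF2 n (k - 1) E W hE
  have hkk : k - 1 + 1 = k := by omega
  rw [hkk] at f1
  have f1' : (PP E W k : ℝ) = ∑ B ∈ W.powerset.filter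
      (fun B => Pool.Agent.Helper89.UB.Al E B), (PP E (W \ B) (k - 1) : ℝ) := by
    rw [f1]; push_cast; rfl
  have hDpos : 0 < (k : ℝ) - 1 - D := by linarith
  have hDpos' : 0 < (k : ℝ) + 1 - D := by linarith
  set a : ℝ := 1001 / 1000 / ((k : ℝ) - 1 - D) with ha
  have ha0 : 0 ≤ a := by positivity
  have hx := hEXM n D k E W a hE hBD (by omega) ha0
  set T : Finset (Finset (Fin n)) := W.powerset.filter
      (fun B => Pool.Agent.Helper89.UB.Al E B) with hT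
  have hcard : (W.card : ℝ) ≤ n := by
    have := Finset.card_le_univ W
    rw [Fintype.card_fin] at this
    exact_mod_cast this
  have hexp : (1 + a / ((k : ℝ) + 1 - D)) ^ W.card ≤ Real.exp (1004 / 1000 * (n / (k : ℝ) ^ 2)) := by
    have h1 : 1 + a / ((k : ℝ) + 1 - D) ≤ Real.exp (a / ((k : ℝ) + 1 - D)) := by
      rw [add_comm]; exact Real.add_one_le_exp _
    have h2 : (1 + a / ((k : ℝ) + 1 - D)) ^ W.card ≤ Real.exp (a / ((k : ℝ) + 1 - D)) ^ W.card :=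
      pow_le_pow_left₀ (by positivity) h1 _
    refine h2.trans ?_
    rw [← Real.exp_nat_mul, Real.exp_le_exp]
    have h3 : a / ((k : ℝ) + 1 - D) ≤ 1004 / 1000 / (k : ℝ) ^ 2 := by
      rw [ha, div_div, div_le_div_iff₀ (by positivity) (by positivity)]
      have h4 : (k : ℝ) - D ≥ 999 / 1000 * k := by linarith
      have h5 : ((k : ℝ) - D) ^ 2 ≥ (999 / 1000 * k) ^ 2 := by
        exact pow_le_pow_left₀ (by positivity) h4 2
      nlinarith
    calc (W.card : ℝ) * (a / ((k : ℝ) + 1 - D)) ≤ n * (1004 / 1000 / (k : ℝ) ^ 2) :=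
          mul_le_mul hcard h3 (by positivity) (Nat.cast_nonneg n)
      _ = 1004 / 1000 * (n / (k : ℝ) ^ 2) := by ring
  have hV1 : (0 : ℝ) ≤ PP E W (k - 1) := Nat.cast_nonneg _
  have hV3 : (0 : ℝ) ≤ PP E W (k + 1) := Nat.cast_nonneg _
  calc (PP E W k : ℝ) ^ 2 = ∑ B ∈ T, (PP E (W \ B) (k - 1) : ℝ) * PP E W k := by
        rw [← Finset.sum_mul, ← f1', sq]
    _ ≤ ∑ B ∈ T, (1 + a) ^ B.card * ((PP E (W \ B) k : ℝ) * PP E W (k - 1)) :=
        Finset.sum_le_sum fun B hB => hcmp B (Finset.mem_powerset.1 (Finset.mem_filter.1 hB).1)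
    _ = PP E W (k - 1) * ∑ B ∈ T, (PP E (W \ B) k : ℝ) * (1 + a) ^ B.card := by
        rw [Finset.mul_sum]
        refine Finset.sum_congr rfl fun B _ => ?_
        ring
    _ ≤ PP E W (k - 1) * (PP E W (k + 1) * (1 + a / ((k : ℝ) + 1 - D)) ^ W.card) :=
        mul_le_mul_of_nonneg_left hx hV1
    _ ≤ PP E W (k - 1) * (PP E W (k + 1) *
          Real.exp (1004 / 1000 * (n / (k : ℝ) ^ 2))) :=
        mul_le_mul_of_nonneg_left (mul_le_mul_of_nonneg_left hexp hV3) hV1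
    _ = _ := by ring

theorem st_STW (hHDF : ST_HDF) (hRAT : ST_RAT) (hEXM : ST_EXM) (hSYM : ST_SYM) (hF2 : ST_F2)
    (hPOS : ST_POS) (hBKD : ST_BKD) (hB3N : ST_B3N) : ST_STW := by
  obtain ⟨n1, h1⟩ := hHDF
  obtain ⟨n2, h2⟩ := hB3N
  refine ⟨max n1 n2, fun n hn D0 r k E W hReg hW hk1 hk2 => ?_⟩
  have hn1 : n1 ≤ n := (le_max_left _ _).trans hn
  have hn2 : n2 ≤ n := (le_max_right _ _).trans hn
  have hnl : (0 : ℝ) ≤ (n : ℝ) / Real.log n :=
    div_nonneg (Nat.cast_nonneg n) (Real.log_natCast_nonneg n)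
  obtain ⟨hr4, hD, -, hk, -, -⟩ := h2 n hn2 D0 r k hReg.d0 hReg.r0 (by linarith)
  have hBD : BD E (DD n D0 r) := hBKD n D0 r E hReg.two hr4 hReg.deg
  set D := DD n D0 r with hDdef
  have hE := hReg.two
  have hcmp := fun (B : Finset (Fin n)) (hB : B ⊆ W) => sta_cmp hRAT hE hBD
    (by omega : D + 1 < k)
    (fun W v hv => h1 n hn1 D0 r k E W v hReg (by linarith) hv) W B hB
  have hp1 := (hPOS n D (k - 1) E W hE hBD (by omega)).1
  have hp2 := (hPOS n D k E W hE hBD (by omega)).1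
  have hp3 := (hPOS n D (k + 1) E W hE hBD (by omega)).1
  refine ⟨hp1, hp2, hp3, ?_, ?_⟩
  · exact stw_low hSYM hF2 W hE (by omega) fun B hB => (hcmp B hB).1
  · exact stw_up hEXM hF2 W hE hBD hD hk fun B hB => (hcmp B hB).2

end Pool.Agent.Helper5.FV
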